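import Pool.Agent.W34.GB.Stm
import Pool.Agent.H337R2.Cx4

open Polynomial Filter Topology MeasureTheory
open Pool.Agent.W34.GB

namespace Pool.Agent.W748.GZ

noncomputable section

lemma zn_even (σ m : ℕ) : zn σ (2 * m) = (m : ℚ) + min ((σ : ℚ) / 4) (1 / 2) := by
  unfold zn
  have h1 : 2 * m / 2 = m := by omega
  have h2 : 2 * m % 2 = 0 := by omega
  rw [h1, if_pos h2]

lemma zn_odd (σ m : ℕ) : zn σ (2 * m + 1) = (m : ℚ) + max ((σ : ℚ) / 4) (1 / 2) := by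
  unfold zn
  have h1 : (2 * m + 1) / 2 = m := by omega
  have h2 : ¬ (2 * m + 1) % 2 = 0 := by omega
  rw [h1, if_neg h2]

lemma par (l : ℕ) : (∃ m, l = 2 * m) ∨ ∃ m, l = 2 * m + 1 := by
  rcases Nat.even_or_odd' l with ⟨m, h | h⟩
  · exact Or.inl ⟨m, h⟩
  · exact Or.inr ⟨m, h⟩

lemma zn_lower {σ : ℕ} (hσ : σ = 1 ∨ σ = 3) (l : ℕ) : (l : ℚ) / 2 ≤ zn σ l := by
  rcases par l with ⟨m, rfl⟩ | ⟨m, rfl⟩
  · rw [zn_even]
    rcases hσ with rfl | rfl
    · rw [min_eq_left (by norm_num)]; push_cast; linarith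
    · rw [min_eq_right (by norm_num)]; push_cast; linarith
  · rw [zn_odd]
    rcases hσ with rfl | rfl
    · rw [max_eq_right (by norm_num)]; push_cast; linarith
    · rw [max_eq_left (by norm_num)]; push_cast; linarith

lemma zn_upper {σ : ℕ} (hσ : σ = 1 ∨ σ = 3) (l : ℕ) : zn σ l ≤ (l : ℚ) / 2 + 1 / 2 := by
  rcases par l with ⟨m, rfl⟩ | ⟨m, rfl⟩
  · rw [zn_even]
    rcases hσ with rfl | rfl
    · rw [min_eq_left (by norm_num)]; push_cast; linarith
    · rw [min_eq_right (by norm_num)]; push_cast; linarith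
  · rw [zn_odd]
    rcases hσ with rfl | rfl
    · rw [max_eq_right (by norm_num)]; push_cast; linarith
    · rw [max_eq_left (by norm_num)]; push_cast; linarith

lemma zn_strictMono {σ : ℕ} (hσ : σ = 1 ∨ σ = 3) : StrictMono (zn σ) := by
  apply strictMono_nat_of_lt_succ
  intro l
  rcases par l with ⟨m, rfl⟩ | ⟨m, rfl⟩
  · rw [zn_even, zn_odd]
    rcases hσ with rfl | rfl
    · rw [min_eq_left (by norm_num), max_eq_right (by norm_num)]; push_cast; linarith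
    · rw [min_eq_right (by norm_num), max_eq_left (by norm_num)]; push_cast; linarith
  · have : 2 * m + 1 + 1 = 2 * (m + 1) := by ring
    rw [this, zn_even, zn_odd]
    rcases hσ with rfl | rfl
    · rw [min_eq_left (by norm_num), max_eq_right (by norm_num)]; push_cast; linarith
    · rw [min_eq_right (by norm_num), max_eq_left (by norm_num)]; push_cast; linarith

lemma zn_le_K {σ : ℕ} (hσ : σ = 1 ∨ σ = 3) {l K : ℕ} (hl : l < 2 * K) : zn σ l ≤ K := by
  have h1 := zn_upper hσ l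
  have h2 : (l : ℚ) + 1 ≤ 2 * K := by exact_mod_cast hl
  linarith

lemma zn_lowerR {σ : ℕ} (hσ : σ = 1 ∨ σ = 3) (l : ℕ) : (l : ℝ) / 2 ≤ ((zn σ l : ℚ) : ℝ) := by
  have h := (Rat.cast_le (K := ℝ)).2 (zn_lower hσ l)
  push_cast at h
  exact h

lemma zn_upperR {σ : ℕ} (hσ : σ = 1 ∨ σ = 3) (l : ℕ) : ((zn σ l : ℚ) : ℝ) ≤ (l : ℝ) / 2 + 1 / 2 := by
  have h := (Rat.cast_le (K := ℝ)).2 (zn_upper hσ l)
  push_cast at h
  exact h

/-! ### A4z -/

theorem a4z : A4z := by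
  intro h σ j l h3 hσ hj hl
  have hbb : 0 ≤ bb h j := by
    unfold bb
    positivity
  rcases lt_or_ge l j with hlj | hlj
  · have : (Zp σ j).eval (zn σ l) = 0 := by
      unfold Zp
      rw [eval_prod]
      apply Finset.prod_eq_zero (Finset.mem_range.2 hlj)
      simp
    rw [this]
    simpa using hbb
  · have hzl : ((j : ℝ) / 2) ≤ ((zn σ l : ℚ) : ℝ) := by
      have h2 : ((l : ℝ) / 2) ≤ ((zn σ l : ℚ) : ℝ) := zn_lowerR hσ l
      have h4 : (j : ℝ) ≤ l := by exact_mod_cast hlj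
      linarith
    have hR : |((Rq h (zn σ l) : ℚ) : ℝ)| ≤ 1 / (∏ k ∈ Finset.Icc 1 (2 * h), ((j : ℝ) / 2 + k)) ^ 3 := by
      unfold Rq
      push_cast
      have hpos : 0 < ∏ k ∈ Finset.Icc 1 (2 * h), ((j : ℝ) / 2 + k) := by
        apply Finset.prod_pos
        intro k hk
        have : 1 ≤ k := (Finset.mem_Icc.1 hk).1
        positivity
      have hle : ∏ k ∈ Finset.Icc 1 (2 * h), ((j : ℝ) / 2 + k) ≤
          ∏ k ∈ Finset.Icc 1 (2 * h), (((zn σ l : ℚ) : ℝ) + k) := by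
        apply Finset.prod_le_prod
        · intro k _; positivity
        · intro k _; linarith
      rw [abs_of_nonneg (by
        apply div_nonneg zero_le_one
        apply pow_nonneg
        exact hpos.le.trans hle)]
      apply one_div_le_one_div_of_le (pow_pos hpos 3)
      exact pow_le_pow_left₀ hpos.le hle 3
    have hZ : (((Zp σ j).eval (zn σ l) : ℚ) : ℝ) ^ 2 ≤ ∏ i ∈ Finset.range j, ((KK h : ℝ) - (i : ℝ) / 2) ^ 2 := by
      unfold Zp
      rw [eval_prod]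
      push_cast
      rw [← Finset.prod_pow]
      apply Finset.prod_le_prod
      · intro i _; positivity
      · intro i hi
        have hij : i < l := (Finset.mem_range.1 hi).trans_le hlj
        simp only [eval_sub, eval_X, eval_C]
        push_cast
        have h5 : ((zn σ i : ℚ) : ℝ) < ((zn σ l : ℚ) : ℝ) := by exact_mod_cast zn_strictMono hσ hij
        have h6 : ((i : ℝ) / 2) ≤ ((zn σ i : ℚ) : ℝ) := zn_lowerR hσ i
        have h7 : ((zn σ l : ℚ) : ℝ) ≤ (KK h : ℝ) := by exact_mod_cast zn_le_K hσ hl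
        apply pow_le_pow_left₀ <;> linarith
    calc |((Rq h (zn σ l) : ℚ) : ℝ)| * (((Zp σ j).eval (zn σ l) : ℚ) : ℝ) ^ 2
        ≤ (1 / (∏ k ∈ Finset.Icc 1 (2 * h), ((j : ℝ) / 2 + k)) ^ 3) *
          ∏ i ∈ Finset.range j, ((KK h : ℝ) - (i : ℝ) / 2) ^ 2 := by
          apply mul_le_mul hR hZ (by positivity) (by positivity)
      _ = bb h j := by unfold bb; ring

/-! ### A4s -/

lemma prod_mono {f : ℕ → ℝ} (hf : ∀ i, 1 ≤ f i) : Monotone fun n => ∏ i ∈ Finset.range n, f i := by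
  apply monotone_nat_of_le_succ
  intro n
  rw [Finset.prod_range_succ]
  apply le_mul_of_one_le_right _ (hf n)
  apply Finset.prod_nonneg
  intro i _
  linarith [hf i]

lemma prod_le_exp {x : ℝ} (hx : 0 ≤ x) (n : ℕ) :
    ∏ j ∈ Finset.range n, (1 + x ^ 2 / ((j : ℝ) + 1) ^ 2) ≤ Real.exp (Real.pi * x) := by
  rcases hx.eq_or_lt with rfl | hx
  · simp
  · have h1 := Pool.Agent.H337R2.sinh_prod hx.ne'
    have hm : Monotone fun n : ℕ => ∏ j ∈ Finset.range n, (1 + x ^ 2 / ((j : ℝ) + 1) ^ 2) := by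
      apply prod_mono
      intro i
      have : 0 ≤ x ^ 2 / ((i : ℝ) + 1) ^ 2 := by positivity
      linarith
    refine (hm.ge_of_tendsto h1 n).trans ?_
    have ht : 0 < Real.pi * x := mul_pos Real.pi_pos hx
    rw [div_le_iff₀ ht, Real.sinh_eq]
    have h2 := Real.add_one_le_exp (-(2 * (Real.pi * x)))
    have h3 : Real.exp (-(Real.pi * x)) = Real.exp (Real.pi * x) * Real.exp (-(2 * (Real.pi * x))) := by
      rw [← Real.exp_add]; congr 1; ring
    rw [h3]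
    have h4 := Real.exp_pos (Real.pi * x)
    nlinarith

lemma prod_half {K j : ℕ} (hj : j < 2 * K) (y : ℝ) :
    (1 + 4 * y ^ 2) * ∏ i ∈ Finset.range j, (1 + y ^ 2 / ((K : ℝ) - (i : ℝ) / 2) ^ 2) ≤
      Real.exp (2 * Real.pi * |y|) := by
  obtain ⟨M, hM⟩ : ∃ M, 2 * K = M + 1 := ⟨2 * K - 1, by omega⟩
  have hjM : j ≤ M := by omega
  have h1 := prod_le_exp (x := 2 * |y|) (by positivity) (2 * K)
  have hK : (K : ℝ) = ((M : ℝ) + 1) / 2 := by
    have : (2 : ℝ) * K = M + 1 := by exact_mod_cast hM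
    linarith
  have h2 : ∏ i ∈ Finset.range (2 * K), (1 + (2 * |y|) ^ 2 / ((i : ℝ) + 1) ^ 2) =
      ∏ i ∈ Finset.range (2 * K), (1 + y ^ 2 / ((K : ℝ) - (i : ℝ) / 2) ^ 2) := by
    rw [← Finset.prod_range_reflect]
    apply Finset.prod_congr rfl
    intro i hi
    have hi' : i < 2 * K := Finset.mem_range.1 hi
    have e : ((2 * K - 1 - i : ℕ) : ℝ) = 2 * (K : ℝ) - 1 - i := by
      rw [Nat.cast_sub (by omega), Nat.cast_sub (by omega)]; push_cast; ring
    rw [e]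
    have hne : (K : ℝ) - (i : ℝ) / 2 ≠ 0 := by
      have : (i : ℝ) < 2 * K := by exact_mod_cast hi'
      intro h0
      linarith
    have e2 : 2 * (K : ℝ) - 1 - i + 1 = 2 * ((K : ℝ) - (i : ℝ) / 2) := by ring
    rw [e2, mul_pow, mul_pow, sq_abs]
    field_simp
  rw [h2, hM, Finset.prod_range_succ] at h1
  have h3 : ((K : ℝ) - (M : ℝ) / 2) = 1 / 2 := by rw [hK]; ring
  rw [h3] at h1
  have h4 : (1 + y ^ 2 / (1 / 2 : ℝ) ^ 2) = 1 + 4 * y ^ 2 := by ring
  rw [h4] at h1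
  have h5 : ∏ i ∈ Finset.range j, (1 + y ^ 2 / ((K : ℝ) - (i : ℝ) / 2) ^ 2) ≤
      ∏ i ∈ Finset.range M, (1 + y ^ 2 / ((K : ℝ) - (i : ℝ) / 2) ^ 2) := by
    apply prod_mono _ hjM
    intro i
    have : 0 ≤ y ^ 2 / ((K : ℝ) - (i : ℝ) / 2) ^ 2 := by positivity
    linarith
  have h6 : Real.pi * (2 * |y|) = 2 * Real.pi * |y| := by ring
  rw [h6] at h1
  calc _ ≤ (1 + 4 * y ^ 2) * ∏ i ∈ Finset.range M, (1 + y ^ 2 / ((K : ℝ) - (i : ℝ) / 2) ^ 2) := by
        apply mul_le_mul_of_nonneg_left h5; positivity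
    _ ≤ _ := by rw [mul_comm]; exact h1

theorem a4s : A4s := by
  refine ⟨1, one_pos, ?_⟩
  intro h σ j b y h3 hσ hj hb
  have hK : 1 ≤ KK h := by unfold KK; omega
  set K := KK h with hKd
  have hjK : (j : ℝ) + 1 ≤ 2 * K := by exact_mod_cast hj
  have hb1 : 1 / 4 ≤ b ∧ b ≤ 3 / 4 := by
    rcases hb with rfl | rfl
    · rcases hσ with rfl | rfl <;> norm_num
    · norm_num
  -- the modulus of R
  have hzre : ∀ a : ℝ, a ≤ (K : ℝ) - 1 / 2 + b / 2 → ∀ k : ℕ, a + k ≤ ‖ln h b y + k‖ := by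
    intro a ha k
    have : (ln h b y + k).re = (K : ℝ) - 1 / 2 + b / 2 + k := by
      unfold ln
      simp [hKd]
    calc a + k ≤ (ln h b y + k).re := by rw [this]; linarith
      _ ≤ |(ln h b y + k).re| := le_abs_self _
      _ ≤ _ := Complex.abs_re_le_norm _
  have hpos : 0 < ∏ k ∈ Finset.Icc 1 (2 * h), ((j : ℝ) / 2 + k) := by
    apply Finset.prod_pos
    intro k hk
    have : 1 ≤ k := (Finset.mem_Icc.1 hk).1
    positivity
  have hR : ‖Rc h (ln h b y)‖ ≤ 1 / (∏ k ∈ Finset.Icc 1 (2 * h), ((j : ℝ) / 2 + k)) ^ 3 := by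
    unfold Rc
    rw [norm_div, norm_one, norm_pow, norm_prod]
    apply one_div_le_one_div_of_le (pow_pos hpos 3)
    apply pow_le_pow_left₀ hpos.le
    apply Finset.prod_le_prod
    · intro k _; positivity
    · intro k _
      exact hzre _ (by linarith) k
  have hZ : ‖aeval (ln h b y) (Zp σ j)‖ ^ 2 ≤
      (∏ i ∈ Finset.range j, ((K : ℝ) - (i : ℝ) / 2) ^ 2) *
        ∏ i ∈ Finset.range j, (1 + y ^ 2 / ((K : ℝ) - (i : ℝ) / 2) ^ 2) := by
    unfold Zp
    rw [map_prod, norm_prod, ← Finset.prod_pow, ← Finset.prod_mul_distrib]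
    apply Finset.prod_le_prod
    · intro i _; positivity
    · intro i hi
      have hij : i < j := Finset.mem_range.1 hi
      have hij' : (i : ℝ) + 1 ≤ j := by exact_mod_cast hij
      have hne : 0 < (K : ℝ) - (i : ℝ) / 2 := by linarith
      have e1 : ((K : ℝ) - (i : ℝ) / 2) ^ 2 * (1 + y ^ 2 / ((K : ℝ) - (i : ℝ) / 2) ^ 2) =
          ((K : ℝ) - (i : ℝ) / 2) ^ 2 + y ^ 2 := by
        rw [mul_add, mul_one, mul_div_cancel₀ _ (pow_ne_zero 2 hne.ne')]
      rw [e1]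
      have e2 : aeval (ln h b y) (X - C (zn σ i)) = ln h b y - ((zn σ i : ℚ) : ℂ) := by
        simp
      rw [e2, ← Complex.normSq_eq_norm_sq, Complex.normSq_apply]
      have e3 : (ln h b y - ((zn σ i : ℚ) : ℂ)).re = (K : ℝ) - 1 / 2 + b / 2 - ((zn σ i : ℚ) : ℝ) := by
        unfold ln
        simp [hKd]
      have e4 : (ln h b y - ((zn σ i : ℚ) : ℂ)).im = y := by
        unfold ln
        simp
      rw [e3, e4]
      have h6 : ((i : ℝ) / 2) ≤ ((zn σ i : ℚ) : ℝ) := zn_lowerR hσ i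
      have h7 : ((zn σ i : ℚ) : ℝ) ≤ (i : ℝ) / 2 + 1 / 2 := zn_upperR hσ i
      have h8 : ((K : ℝ) - 1 / 2 + b / 2 - ((zn σ i : ℚ) : ℝ)) ^ 2 ≤ ((K : ℝ) - (i : ℝ) / 2) ^ 2 := by
        apply sq_le_sq'
        · linarith
        · linarith
      nlinarith
  have hmain := prod_half (K := K) hj y
  set P1 := ∏ i ∈ Finset.range j, ((K : ℝ) - (i : ℝ) / 2) ^ 2 with hP1
  set P2 := ∏ i ∈ Finset.range j, (1 + y ^ 2 / ((K : ℝ) - (i : ℝ) / 2) ^ 2) with hP2
  have hP2n : 0 ≤ P2 := by rw [hP2]; positivity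
  have hP1n : 0 ≤ P1 := by rw [hP1]; positivity
  have hbb : bb h j = 1 / (∏ k ∈ Finset.Icc 1 (2 * h), ((j : ℝ) / 2 + k)) ^ 3 * P1 := by
    unfold bb
    rw [← hKd, ← hP1]
    ring
  have hbb0 : 0 ≤ bb h j := by
    rw [hbb]; positivity
  have hP2e : P2 * Real.exp (-(2 * Real.pi * |y|)) ≤ (1 + y ^ 2)⁻¹ := by
    have h9 : P2 ≤ Real.exp (2 * Real.pi * |y|) / (1 + y ^ 2) := by
      rw [le_div_iff₀ (by positivity)]
      calc P2 * (1 + y ^ 2) ≤ P2 * (1 + 4 * y ^ 2) := by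
            apply mul_le_mul_of_nonneg_left _ hP2n
            nlinarith [sq_nonneg y]
        _ = (1 + 4 * y ^ 2) * P2 := by ring
        _ ≤ _ := hmain
    calc P2 * Real.exp (-(2 * Real.pi * |y|)) ≤ Real.exp (2 * Real.pi * |y|) / (1 + y ^ 2) * Real.exp (-(2 * Real.pi * |y|)) := by
          apply mul_le_mul_of_nonneg_right h9 (Real.exp_pos _).le
      _ = (Real.exp (2 * Real.pi * |y|) * Real.exp (-(2 * Real.pi * |y|))) * (1 + y ^ 2)⁻¹ := by ring
      _ = (1 + y ^ 2)⁻¹ := by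
          rw [← Real.exp_add, add_neg_cancel, Real.exp_zero, one_mul]
  calc ‖Rc h (ln h b y)‖ * ‖aeval (ln h b y) (Zp σ j)‖ ^ 2 * Real.exp (-(2 * Real.pi * |y|))
      ≤ (1 / (∏ k ∈ Finset.Icc 1 (2 * h), ((j : ℝ) / 2 + k)) ^ 3 * (P1 * P2)) * Real.exp (-(2 * Real.pi * |y|)) := by
        apply mul_le_mul_of_nonneg_right _ (Real.exp_pos _).le
        apply mul_le_mul hR hZ (by positivity) (by positivity)
    _ = bb h j * (P2 * Real.exp (-(2 * Real.pi * |y|))) := by rw [hbb]; ring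
    _ ≤ bb h j * (1 + y ^ 2)⁻¹ := mul_le_mul_of_nonneg_left hP2e hbb0
    _ = 1 * bb h j * (1 + y ^ 2)⁻¹ := by ring

end

end Pool.Agent.W748.GZ
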